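import Pool.Agent.H.MP_b90300_al.D

set_option autoImplicit false

namespace Pool.Agent.Results.MP_b90300_al.Yes

/-- The `t`-th symbolic power: the intersection over the minimal primes `P` of `I` of the
contractions of `I ^ t R_P` to `R`. -/
noncomputable def symbPow {R : Type} [CommRing R] (I : Ideal R) (t : ℕ) : Ideal R :=
  ⨅ (P : PrimeSpectrum R) (_ : P.asIdeal ∈ I.minimalPrimes),
    ((I ^ t).map (algebraMap R (Localization.AtPrime P.asIdeal))).comap
      (algebraMap R (Localization.AtPrime P.asIdeal))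

theorem result (K : Type) [Field K] (φ : ℕ → ℕ) (hpos : ∀ t, 1 ≤ t → 1 ≤ φ t)
    (hper : ∃ p t₀ : ℕ, 1 ≤ p ∧ ∀ t, t₀ ≤ t → φ (t + p) = φ t) :
    ∃ (r : ℕ) (I : Ideal (MvPolynomial (Fin r) K)),
      (∃ s : Set (Fin r →₀ ℕ), I = Ideal.span ((fun m => MvPolynomial.monomial m (1 : K)) '' s)) ∧
      ∀ t, 1 ≤ t →
        IsGreatest {l : ℕ | ∃ rs : List (MvPolynomial (Fin r) K), rs.length = l ∧
          (∀ a ∈ rs, a ∈ Ideal.span (Set.range (MvPolynomial.X : Fin r → MvPolynomial (Fin r) K))) ∧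
          RingTheory.Sequence.IsRegular (MvPolynomial (Fin r) K ⧸ symbPow I t) rs} (φ t) := by
  obtain ⟨p, N, hp, hN⟩ := hper
  have hper : ∀ j t, N ≤ t → φ (t + p * j) = φ t := by
    intro j t ht
    induction j with
    | zero => simp
    | succ j ih => rw [Nat.mul_succ, ← add_assoc, hN _ (by omega), ih]
  have hle : N + 1 ≤ p * (N + 1) := Nat.le_mul_of_pos_left _ hp
  obtain ⟨r, s, h⟩ := Dep.main K φ (p * (N + 1)) (by omega) hpos
    (fun t ht => hper _ t (by omega))
  refine ⟨r, PdFun.MI K s, ⟨s, rfl⟩, fun t ht => ?_⟩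
  obtain ⟨J, h1, h2⟩ := h t ht
  have : symbPow (PdFun.MI K s) t = J := by
    ext f
    rw [h1, symbPow]
    simp only [Ideal.mem_iInf, Ideal.mem_comap]
    constructor
    · intro h3 P hP
      have := hP.1.1
      exact (IsLocalization.algebraMap_mem_map_algebraMap_iff P.primeCompl _ _ f).1
        (h3 ⟨P, this⟩ hP)
    · intro h3 P hP
      exact (IsLocalization.algebraMap_mem_map_algebraMap_iff P.asIdeal.primeCompl _ _ f).2
        (h3 _ hP)
  rwa [this]

end Pool.Agent.Results.MP_b90300_al.Yes
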